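import Pool.Agent.TBP.StmtsA

/-!
# Row BHA of squad TBP: the Brun-Hooley sieve with arbitrary local conditions, both bounds
-/

set_option autoImplicit false

namespace Pool.Agent.TBP.H90

open Finset
open Pool.Agent.Common_Sieve

/-- averaging of a product of local functionals, error terms `∏ p` -/
theorem avg2 {α : Type*} (X : Finset α) (ind : α → ℕ → ℝ) (g : ℕ → ℝ) (M : ℝ)
    (blk : ℕ → Finset ℕ) (T : ℕ → Finset (Finset ℕ)) (w : ℕ → Finset ℕ → ℝ)
    (hdisj : ∀ i j, i ≠ j → Disjoint (blk i) (blk j)) (hT : ∀ r, T r ⊆ (blk r).powerset)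
    (hw : ∀ r, ∀ D ∈ T r, |w r D| ≤ 1) (hblk : ∀ r, ∀ p ∈ blk r, p.Prime)
    (R : ℕ) (x c : ℕ → ℕ) (hx : ∀ r, ∀ p ∈ blk r, p ≤ x r) (hx1 : ∀ r, 1 ≤ x r)
    (hc : ∀ r, ∀ D ∈ T r, D.card ≤ c r)
    (herr : ∀ D : Finset ℕ, D ⊆ (range R).biUnion blk →
      |∑ n ∈ X, ∏ p ∈ D, ind n p - M * ∏ p ∈ D, g p| ≤ ((∏ p ∈ D, p : ℕ) : ℝ)) :
    |∑ n ∈ X, ∏ r ∈ range R, loc (T r) (w r) (ind n) - M * ∏ r ∈ range R, loc (T r) (w r) g|
      ≤ ((∏ r ∈ range R, x r ^ c r : ℕ) : ℝ) ^ 2 := by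
  set Z := ∏ r ∈ range R, x r ^ c r with hZ
  have e1 : ∀ n ∈ X, ∏ r ∈ range R, loc (T r) (w r) (ind n)
      = ∑ D ∈ fam blk T R, lam blk w R D * ∏ p ∈ D, ind n p :=
    fun n _ => expand blk T w hdisj hT (ind n) R
  rw [Finset.sum_congr rfl e1, expand blk T w hdisj hT g R, Finset.sum_comm, Finset.mul_sum,
    ← Finset.sum_sub_distrib]
  have hfamsub : ∀ D ∈ fam blk T R, D ⊆ (range R).biUnion blk := by
    intro D hD
    exact Finset.mem_powerset.1 (Finset.mem_filter.1 hD).1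
  have hprime : ∀ D ∈ fam blk T R, ∀ p ∈ D, p.Prime := by
    intro D hD p hp
    obtain ⟨r, _, hr⟩ := Finset.mem_biUnion.1 (hfamsub D hD hp)
    exact hblk r p hr
  have hlam : ∀ D ∈ fam blk T R, |lam blk w R D| ≤ 1 := by
    intro D hD
    unfold lam
    rw [Finset.abs_prod]
    apply Finset.prod_le_one
    · intro r _; exact abs_nonneg _
    · intro r hr
      exact hw r _ ((Finset.mem_filter.1 hD).2 r hr)
  have hb : ∀ D ∈ fam blk T R,
      |∑ n ∈ X, lam blk w R D * ∏ p ∈ D, ind n p - M * (lam blk w R D * ∏ p ∈ D, g p)|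
        ≤ (Z : ℝ) := by
    intro D hD
    have h1 : ∑ n ∈ X, lam blk w R D * ∏ p ∈ D, ind n p - M * (lam blk w R D * ∏ p ∈ D, g p)
        = lam blk w R D * (∑ n ∈ X, ∏ p ∈ D, ind n p - M * ∏ p ∈ D, g p) := by
      rw [← Finset.mul_sum]; ring
    rw [h1, abs_mul]
    calc |lam blk w R D| * |∑ n ∈ X, ∏ p ∈ D, ind n p - M * ∏ p ∈ D, g p|
        ≤ 1 * ((∏ p ∈ D, p : ℕ) : ℝ) := by
          apply mul_le_mul (hlam D hD) (herr D (hfamsub D hD)) (abs_nonneg _) zero_le_one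
      _ ≤ (Z : ℝ) := by
          rw [one_mul]
          have h2 := prod_le_of_mem_fam hdisj hx hx1 hc hD
          exact_mod_cast h2
  have hcard : ((fam blk T R).card : ℝ) ≤ Z := by
    have := card_le_of_prod_le (fam blk T R) hprime Z
      (fun D hD => prod_le_of_mem_fam hdisj hx hx1 hc hD)
    exact_mod_cast this
  calc _ ≤ ∑ D ∈ fam blk T R,
      |∑ n ∈ X, lam blk w R D * ∏ p ∈ D, ind n p - M * (lam blk w R D * ∏ p ∈ D, g p)| :=
        Finset.abs_sum_le_sum_abs _ _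
    _ ≤ ∑ D ∈ fam blk T R, (Z : ℝ) := Finset.sum_le_sum hb
    _ = (fam blk T R).card * (Z : ℝ) := by rw [Finset.sum_const, nsmul_eq_mul]
    _ ≤ (Z : ℝ) * Z := by
        apply mul_le_mul_of_nonneg_right hcard
        positivity
    _ = (Z : ℝ) ^ 2 := by ring

/-- local family `card ≤ b` or, at the place `s`, `card = b + 1` -/
def TT (blk : ℕ → Finset ℕ) (b : ℕ → ℕ) (s : Option ℕ) (r : ℕ) : Finset (Finset ℕ) :=
  if s = some r then (blk r).powersetCard (b r + 1)
  else (blk r).powerset.filter (fun D => D.card ≤ b r)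

/-- local weight -/
def ww (s : Option ℕ) (r : ℕ) (D : Finset ℕ) : ℝ := if s = some r then 1 else (-1) ^ D.card

/-- the local functional -/
def LL (blk : ℕ → Finset ℕ) (b : ℕ → ℕ) (s : Option ℕ) (f : ℕ → ℝ) (r : ℕ) : ℝ :=
  if s = some r then esum f (blk r) (b r + 1) else btr f (blk r) (b r)

theorem loc_TT (blk : ℕ → Finset ℕ) (b : ℕ → ℕ) (s : Option ℕ) (r : ℕ) (f : ℕ → ℝ) :
    loc (TT blk b s r) (ww s r) f = LL blk b s f r := by
  unfold TT LL
  split_ifs with h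
  · rw [esum_eq_loc]
    unfold loc ww
    simp [h]
  · rw [btr_eq_loc]
    unfold loc ww
    simp [h]

theorem avg_TT {blk : ℕ → Finset ℕ} {b x : ℕ → ℕ}
    (hdisj : ∀ i j, i ≠ j → Disjoint (blk i) (blk j))
    (hblk : ∀ r, ∀ p ∈ blk r, p.Prime) (hx : ∀ r, ∀ p ∈ blk r, p ≤ x r) (hx1 : ∀ r, 1 ≤ x r)
    (R : ℕ) {α : Type*} (X : Finset α) (ind : α → ℕ → ℝ) (g : ℕ → ℝ) (M : ℝ) (s : Option ℕ)
    (herr : ∀ D : Finset ℕ, D ⊆ (range R).biUnion blk →
      |∑ n ∈ X, ∏ p ∈ D, ind n p - M * ∏ p ∈ D, g p| ≤ ((∏ p ∈ D, p : ℕ) : ℝ)) :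
    |∑ n ∈ X, ∏ r ∈ range R, LL blk b s (ind n) r - M * ∏ r ∈ range R, LL blk b s g r|
      ≤ ((∏ r ∈ range R, x r ^ (b r + 1) : ℕ) : ℝ) ^ 2 := by
  have key := avg2 X ind g M blk (TT blk b s) (ww s) hdisj
    (by
      intro r
      unfold TT
      split_ifs
      · intro D hD
        rw [Finset.mem_powerset]
        exact (Finset.mem_powersetCard.1 hD).1
      · exact Finset.filter_subset _ _)
    (by
      intro r D _
      unfold ww
      split_ifs
      · simp
      · simp [abs_pow])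
    hblk R x (fun r => b r + 1) hx hx1
    (by
      intro r D hD
      unfold TT at hD
      split_ifs at hD
      · exact (Finset.mem_powersetCard.1 hD).2.le
      · exact ((Finset.mem_filter.1 hD).2).trans (Nat.le_succ _))
    herr
  simp only [loc_TT] at key
  exact key

theorem one_sub_ge {x : ℝ} (h0 : 0 ≤ x) (h1 : 2 * x ≤ 1) : Real.exp (-(2 * x)) ≤ 1 - x := by
  have h2 : 1 + 2 * x ≤ Real.exp (2 * x) := by linarith [Real.add_one_le_exp (2 * x)]
  have h3 : Real.exp (-(2 * x)) = 1 / Real.exp (2 * x) := by rw [Real.exp_neg, one_div]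
  rw [h3, div_le_iff₀ (Real.exp_pos _)]
  have h4 : (1 - x) * (1 + 2 * x) ≤ (1 - x) * Real.exp (2 * x) :=
    mul_le_mul_of_nonneg_left h2 (by linarith)
  nlinarith

theorem exp_quarter : Real.exp (1 / 4) ≤ 2 := by
  have h : Real.exp (1 / 4) ≤ Real.exp (Real.log 2) := by
    apply Real.exp_le_exp.mpr
    have := Real.log_two_gt_d9
    linarith
  rwa [Real.exp_log (by norm_num)] at h

/-- the abstract sieve, real version -/
theorem sieve {blk : ℕ → Finset ℕ} {b x : ℕ → ℕ} {S ε : ℕ → ℝ} {g : ℕ → ℝ}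
    (hdisj : ∀ i j, i ≠ j → Disjoint (blk i) (blk j))
    (hblk : ∀ r, ∀ p ∈ blk r, p.Prime) (hx : ∀ r, ∀ p ∈ blk r, p ≤ x r) (hx1 : ∀ r, 1 ≤ x r)
    (hb : ∀ r, Even (b r)) (hε0 : ∀ r, 0 ≤ ε r)
    (hg : ∀ r, ∀ p ∈ blk r, 0 ≤ g p ∧ 2 * g p ≤ 1)
    (hS : ∀ r, ∑ p ∈ blk r, g p ≤ S r)
    (hE : ∀ r, S r ^ (b r + 1) / (Nat.factorial (b r + 1) : ℝ) ≤ ε r * Real.exp (-(2 * S r)))
    (R : ℕ) (hε : ∑ r ∈ range R, ε r ≤ 1 / 4)
    {α : Type*} (X : Finset α) (ind : α → ℕ → ℝ) (hind : ∀ n ∈ X, ∀ p, 0 ≤ ind n p ∧ ind n p ≤ 1)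
    (M : ℝ) (hM : 0 ≤ M)
    (herr : ∀ D : Finset ℕ, D ⊆ (range R).biUnion blk →
      |∑ n ∈ X, ∏ p ∈ D, ind n p - M * ∏ p ∈ D, g p| ≤ ((∏ p ∈ D, p : ℕ) : ℝ)) :
    M * (∏ r ∈ range R, ∏ p ∈ blk r, (1 - g p)) / 2
        - (R + 1) * ((∏ r ∈ range R, x r ^ (b r + 1) : ℕ) : ℝ) ^ 2
      ≤ ∑ n ∈ X, ∏ r ∈ range R, ∏ p ∈ blk r, (1 - ind n p) ∧
    ∑ n ∈ X, ∏ r ∈ range R, ∏ p ∈ blk r, (1 - ind n p)
      ≤ 2 * M * (∏ r ∈ range R, ∏ p ∈ blk r, (1 - g p))
        + ((∏ r ∈ range R, x r ^ (b r + 1) : ℕ) : ℝ) ^ 2 := by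
  set Z : ℝ := ((∏ r ∈ range R, x r ^ (b r + 1) : ℕ) : ℝ) with hZ
  have hg01 : ∀ r, ∀ p ∈ blk r, 0 ≤ g p ∧ g p ≤ 1 := fun r p hp => by
    have := hg r p hp
    exact ⟨this.1, by linarith⟩
  -- density bounds
  have hV : ∀ r, Real.exp (-(2 * S r)) ≤ ∏ p ∈ blk r, (1 - g p) := by
    intro r
    have h1 : Real.exp (-(2 * ∑ p ∈ blk r, g p)) ≤ ∏ p ∈ blk r, (1 - g p) := by
      rw [Finset.mul_sum, ← Finset.sum_neg_distrib, Real.exp_sum]
      apply Finset.prod_le_prod
      · intro p _; positivity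
      · intro p hp
        exact one_sub_ge (hg r p hp).1 (hg r p hp).2
    refine le_trans ?_ h1
    rw [Real.exp_le_exp]
    linarith [hS r]
  have hV0 : ∀ r, 0 ≤ ∏ p ∈ blk r, (1 - g p) := fun r => (Real.exp_pos _).le.trans (hV r)
  have hEV : ∀ r, esum g (blk r) (b r + 1) ≤ ε r * ∏ p ∈ blk r, (1 - g p) := by
    intro r
    have h1 := esum_le g (blk r) (fun p hp => (hg r p hp).1) (b r + 1)
    have h3 : 0 ≤ ∑ p ∈ blk r, g p := Finset.sum_nonneg (fun p hp => (hg r p hp).1)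
    have h4 : (∑ p ∈ blk r, g p) ^ (b r + 1) / (Nat.factorial (b r + 1) : ℝ) ≤
        S r ^ (b r + 1) / (Nat.factorial (b r + 1) : ℝ) := by
      apply div_le_div_of_nonneg_right _ (by positivity)
      exact pow_le_pow_left₀ h3 (hS r) _
    exact (h1.trans h4).trans ((hE r).trans (mul_le_mul_of_nonneg_left (hV r) (hε0 r)))
  have hbtr0 : ∀ r, 0 ≤ btr g (blk r) (b r) := fun r => btr_nonneg g _ (hg01 r) _ (hb r)
  have hbon : ∀ r, ∏ p ∈ blk r, (1 - g p) ≤ btr g (blk r) (b r) ∧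
      btr g (blk r) (b r) ≤ (1 + ε r) * ∏ p ∈ blk r, (1 - g p) := by
    intro r
    have h := bonferroni g (blk r) (hg01 r) (b r) (hb r)
    refine ⟨h.1, h.2.trans ?_⟩
    have := hEV r
    linarith
  set V : ℝ := ∏ r ∈ range R, ∏ p ∈ blk r, (1 - g p) with hVdef
  have hVnn : 0 ≤ V := Finset.prod_nonneg (fun r _ => hV0 r)
  have hUg1 : V ≤ ∏ r ∈ range R, btr g (blk r) (b r) :=
    Finset.prod_le_prod (fun r _ => hV0 r) (fun r _ => (hbon r).1)
  have hUg2 : ∏ r ∈ range R, btr g (blk r) (b r) ≤ 2 * V := by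
    calc ∏ r ∈ range R, btr g (blk r) (b r)
        ≤ ∏ r ∈ range R, (Real.exp (ε r) * ∏ p ∈ blk r, (1 - g p)) := by
          apply Finset.prod_le_prod (fun r _ => hbtr0 r)
          intro r _
          refine (hbon r).2.trans (mul_le_mul_of_nonneg_right ?_ (hV0 r))
          linarith [Real.add_one_le_exp (ε r)]
      _ = Real.exp (∑ r ∈ range R, ε r) * V := by
          rw [Finset.prod_mul_distrib, ← Real.exp_sum]
      _ ≤ 2 * V := by
          apply mul_le_mul_of_nonneg_right _ hVnn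
          exact (Real.exp_le_exp.mpr hε).trans exp_quarter
  -- averages
  have hav := fun s => avg_TT (b := b) hdisj hblk hx hx1 R X ind g M s herr
  have hnone : ∀ f : ℕ → ℝ, ∏ r ∈ range R, LL blk b none f r =
      ∏ r ∈ range R, btr f (blk r) (b r) := by
    intro f
    apply Finset.prod_congr rfl
    intro r _
    simp [LL]
  have hav0 := abs_le.1 (hav none)
  simp only [hnone] at hav0
  have hpt0 : ∀ n ∈ X, ∏ r ∈ range R, ∏ p ∈ blk r, (1 - ind n p) ≤
      ∏ r ∈ range R, btr (ind n) (blk r) (b r) := by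
    intro n hn
    apply Finset.prod_le_prod
    · intro r _
      exact Finset.prod_nonneg (fun p _ => by linarith [(hind n hn p).2])
    · intro r _
      exact (bonferroni (ind n) (blk r) (fun p _ => hind n hn p) (b r) (hb r)).1
  have hupper : ∑ n ∈ X, ∏ r ∈ range R, ∏ p ∈ blk r, (1 - ind n p) ≤ 2 * M * V + Z ^ 2 := by
    have h1 := Finset.sum_le_sum hpt0
    have h2 := mul_le_mul_of_nonneg_left hUg2 hM
    linarith [hav0.2]
  refine ⟨?_, hupper⟩
  have hpt : ∀ n ∈ X, ∏ r ∈ range R, btr (ind n) (blk r) (b r) -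
      ∏ r ∈ range R, ∏ p ∈ blk r, (1 - ind n p)
      ≤ ∑ s ∈ range R, ∏ r ∈ range R, LL blk b (some s) (ind n) r := by
    intro n hn
    have h1 := prod_sub_prod_le R (fun r => btr (ind n) (blk r) (b r))
      (fun r => ∏ p ∈ blk r, (1 - ind n p)) (fun r => esum (ind n) (blk r) (b r + 1))
      (fun r => Finset.prod_nonneg (fun p _ => by linarith [(hind n hn p).2]))
      (fun r => (bonferroni _ _ (fun p _ => hind n hn p) _ (hb r)).1)
      (fun r => by
        have := (bonferroni _ (blk r) (fun p _ => hind n hn p) _ (hb r)).2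
        linarith)
    refine h1.trans (le_of_eq ?_)
    apply Finset.sum_congr rfl
    intro s _
    apply Finset.prod_congr rfl
    intro r _
    unfold LL
    by_cases hrs : r = s
    · simp [hrs]
    · have : ¬ (some s = some r) := by simpa using fun h => hrs h.symm
      simp [hrs, this]
  have hsum := Finset.sum_le_sum hpt
  rw [Finset.sum_comm, Finset.sum_sub_distrib] at hsum
  have hterm : ∀ s ∈ range R, ∑ n ∈ X, ∏ r ∈ range R, LL blk b (some s) (ind n) r
      ≤ M * (2 * V) * ε s + Z ^ 2 := by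
    intro s hs
    have h1 := (abs_le.1 (hav (some s))).2
    have h2 : ∏ r ∈ range R, LL blk b (some s) g r ≤ 2 * V * ε s := by
      have e1 : ∏ r ∈ range R, LL blk b (some s) g r
          ≤ ∏ r ∈ range R, ((if s = r then ε r else 1) * btr g (blk r) (b r)) := by
        apply Finset.prod_le_prod
        · intro r _
          unfold LL
          split_ifs
          · exact esum_nonneg g (fun p hp => (hg r p hp).1) _
          · exact hbtr0 r
        · intro r _
          unfold LL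
          by_cases hrs : s = r
          · subst hrs
            simp only [if_true]
            exact (hEV s).trans (mul_le_mul_of_nonneg_left (hbon s).1 (hε0 s))
          · have : ¬ (some s = some r) := by simpa using hrs
            simp [hrs, this]
      have e2 : ∏ r ∈ range R, (if s = r then ε r else 1) = ε s := by
        rw [Finset.prod_ite_eq]
        simp [hs]
      rw [Finset.prod_mul_distrib, e2] at e1
      have e5 := mul_le_mul_of_nonneg_left hUg2 (hε0 s)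
      linarith
    have h3 := mul_le_mul_of_nonneg_left h2 hM
    linarith
  have hsum2 := hsum.trans (Finset.sum_le_sum hterm)
  rw [Finset.sum_add_distrib, Finset.sum_const, Finset.card_range, nsmul_eq_mul,
    ← Finset.mul_sum] at hsum2
  have h6 : M * (2 * V) * ∑ s ∈ range R, ε s ≤ M * (2 * V) * (1 / 4) :=
    mul_le_mul_of_nonneg_left hε (by positivity)
  have h7 := mul_le_mul_of_nonneg_left hUg1 hM
  have h8 := hav0.1
  linarith

theorem bha : BhaStmt := by
  intro R blk P _ κ x b S ε hP hdisj hblk hx1 hb hS0 hε0 hS hE hε X Y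
  set ind : ℤ → ℕ → ℝ := fun n p => if P p n then 1 else 0 with hind
  have hind01 : ∀ n p, 0 ≤ ind n p ∧ ind n p ≤ 1 := by
    intro n p
    rw [hind]
    show 0 ≤ (if P p n then (1 : ℝ) else 0) ∧ (if P p n then (1 : ℝ) else 0) ≤ 1
    split_ifs <;> norm_num
  have hprime : ∀ r, ∀ p ∈ blk r, p.Prime := fun r p hp => (hblk r p hp).1
  have hN : (((Ioc X (X + Y)).filter (fun n => ∀ r ∈ range R, ∀ p ∈ blk r, ¬ P p n)).card : ℝ) =
      ∑ n ∈ Ioc X (X + Y), ∏ r ∈ range R, ∏ p ∈ blk r, (1 - ind n p) := by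
    rw [Finset.card_filter]
    push_cast
    apply Finset.sum_congr rfl
    intro n _
    by_cases h : ∀ r ∈ range R, ∀ p ∈ blk r, ¬ P p n
    · rw [if_pos h]
      symm
      apply Finset.prod_eq_one
      intro r hr
      apply Finset.prod_eq_one
      intro p hp
      show 1 - (if P p n then (1 : ℝ) else 0) = 1
      rw [if_neg (h r hr p hp)]
      ring
    · rw [if_neg h]
      push Not at h
      obtain ⟨r, hr, p, hp, hpn⟩ := h
      symm
      apply Finset.prod_eq_zero hr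
      apply Finset.prod_eq_zero hp
      show 1 - (if P p n then (1 : ℝ) else 0) = 0
      rw [if_pos hpn]
      ring
  rw [hN]
  have hpD : ∀ D : Finset ℕ, ∀ n : ℤ, ∏ p ∈ D, ind n p = if (∀ p ∈ D, P p n) then 1 else 0 := by
    intro D n
    by_cases h : ∀ p ∈ D, P p n
    · rw [if_pos h]
      apply Finset.prod_eq_one
      intro p hp
      show (if P p n then (1 : ℝ) else 0) = 1
      rw [if_pos (h p hp)]
    · rw [if_neg h]
      push Not at h
      obtain ⟨p, hp, hpn⟩ := h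
      apply Finset.prod_eq_zero hp
      show (if P p n then (1 : ℝ) else 0) = 0
      rw [if_neg hpn]
  have hblkp : ∀ r, ∀ p ∈ blk r, 0 < (p : ℝ) := fun r p hp => by
    exact_mod_cast (hprime r p hp).pos
  refine sieve (x := x) (S := S) (ε := ε) (g := fun p => (κ p : ℝ) / p) hdisj hprime
    (fun r p hp => (hblk r p hp).2.1) hx1 hb hε0 ?_ hS hE R hε (Ioc X (X + Y)) ind
    (fun n _ p => hind01 n p) Y (Nat.cast_nonneg Y) ?_
  · intro r p hp
    have hp0 := hblkp r p hp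
    have h2 : (2 : ℝ) * κ p ≤ p := by exact_mod_cast (hblk r p hp).2.2.1
    refine ⟨by positivity, ?_⟩
    rw [← mul_div_assoc, div_le_one hp0]
    exact h2
  · intro D hD
    have hmem : ∀ p ∈ D, p.Prime ∧ κ p ≤ p ∧ cnt P p = κ p := by
      intro p hp
      obtain ⟨r, _, hr⟩ := Finset.mem_biUnion.1 (hD hp)
      obtain ⟨h1, _, h3, h4⟩ := hblk r p hr
      exact ⟨h1, by omega, h4⟩
    have h1 := count_crt P hP D (fun p hp => (hmem p hp).1) X Y
    have e1 : (((Ioc X (X + Y)).filter (fun n => ∀ p ∈ D, P p n)).card : ℝ) =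
        ∑ n ∈ Ioc X (X + Y), ∏ p ∈ D, ind n p := by
      rw [Finset.card_filter]
      push_cast
      apply Finset.sum_congr rfl
      intro n _
      rw [hpD]
    have e2 : ∏ p ∈ D, ((cnt P p : ℝ) / p) = ∏ p ∈ D, ((κ p : ℝ) / p) := by
      apply Finset.prod_congr rfl
      intro p hp
      rw [(hmem p hp).2.2]
    have e3 : ∏ p ∈ D, (cnt P p : ℝ) ≤ ((∏ p ∈ D, p : ℕ) : ℝ) := by
      push_cast
      apply Finset.prod_le_prod
      · intro p _; positivity
      · intro p hp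
        rw [(hmem p hp).2.2]
        exact_mod_cast (hmem p hp).2.1
    rw [e1, e2] at h1
    exact h1.trans e3

end Pool.Agent.TBP.H90
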